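import Pool.Agent.H88.RS.Det
import Pool.Agent.H59.KRes.Final

set_option autoImplicit false

/-!
The two descriptions of the resistance spectrum (`Pool.Agent.H88.RS.spectrum`, ordered pairs and
voltages; `Pool.Agent.H59.KRes.resistanceSpectrum`, unordered pairs and the Moore-Penrose
pseudoinverse of the Laplacian) carry the same information.
-/

namespace Pool.Agent.H9.KB

open Finset Matrix

variable {V : Type*} [Fintype V] [DecidableEq V]

lemma exists_pot (G : SimpleGraph V) [DecidableRel G.Adj] (hG : G.Connected) (u v : V) :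
    ∃ x : V → ℝ, G.lapMatrix ℝ *ᵥ x = Pi.single u 1 - Pi.single v 1 := by
  refine ⟨Pool.Agent.H59.KRes.lapPinv G *ᵥ (Pi.single u 1 - Pi.single v 1), ?_⟩
  rw [Matrix.mulVec_mulVec, Pool.Agent.H59.KRes.lap_mul_pinv G hG, Matrix.sub_mulVec,
    Matrix.one_mulVec, Pool.Agent.H59.KRes.avg_mulVec]
  ext w
  simp

lemma res_eq (G : SimpleGraph V) [DecidableRel G.Adj] (hG : G.Connected) (u v : V) :
    Pool.Agent.H88.RS.resistance G u v = Pool.Agent.H59.KRes.resistance G u v := by
  obtain ⟨x, hx⟩ := exists_pot G hG u v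
  rw [Pool.Agent.H59.KRes.resistance_eq_potential G hG u v x hx]
  apply Pool.Agent.H88.RS.resistance_eq hG
  rw [Pool.Agent.H88.RS.isVoltage_iff]
  intro w
  rw [hx]
  simp [Pi.single_apply]

lemma count_eq (G : SimpleGraph V) [DecidableRel G.Adj] (hG : G.Connected) (t : ℝ) :
    (Pool.Agent.H88.RS.spectrum G).count t
      = 2 * (Pool.Agent.H59.KRes.resistanceSpectrum G).count t := by
  classical
  rw [Pool.Agent.H88.RS.count_spectrum]
  have h := Pool.Agent.H59.KRes.cnt_eq G t
  have e : (fun a b : ℝ => Classical.propDecidable (a = b)) = (fun a b : ℝ => Real.decidableEq a b) := by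
    funext a b; exact Subsingleton.elim _ _
  rw [Pool.Agent.H59.KRes.cnt] at h
  convert h using 2
  ext ⟨a, b⟩
  simp [res_eq G hG]

/-- Same spectrum over unordered pairs gives the same spectrum over ordered pairs. -/
lemma spectrum_of {W : Type*} [Fintype W] [DecidableEq W] (G : SimpleGraph V)
    [DecidableRel G.Adj] (H : SimpleGraph W) [DecidableRel H.Adj] (hG : G.Connected)
    (hH : H.Connected)
    (h : Pool.Agent.H59.KRes.resistanceSpectrum H = Pool.Agent.H59.KRes.resistanceSpectrum G) :
    Pool.Agent.H88.RS.spectrum H = Pool.Agent.H88.RS.spectrum G := by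
  classical
  ext t
  have h1 := count_eq G hG t
  have h2 := count_eq H hH t
  rw [h] at h2
  convert h2.trans h1.symm

end Pool.Agent.H9.KB
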