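import Pool.Agent.H9.KB.Energy

set_option autoImplicit false

namespace Pool.Agent.H9.KB

open Finset Pool.Agent.H88.RS

variable {V : Type*} [Fintype V] [DecidableEq V]
variable {G : SimpleGraph V} [DecidableRel G.Adj] {m n s : ℤ} {M : V → V → ℤ} {t : V → ℤ}

/-- `∑_{u ∈ N(v)} S(u)` -/
lemma nbr_row_sum (D : Data G m n s M t) (hN : (Fintype.card V : ℤ) = m + n) (v : V) :
    ∑ u ∈ G.neighborFinset v, ∑ w, M u w
      = (G.degree v : ℤ) * (∑ w, M v w) + (m + n) * t v - 2 * m * n := by
  rw [Finset.sum_comm, Finset.sum_congr rfl fun w _ => D.rule v w, Finset.sum_sub_distrib,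
    Finset.sum_add_distrib, ← Finset.mul_sum, Finset.sum_const, Finset.card_univ, nsmul_eq_mul, hN,
    Finset.sum_ite_eq, if_pos (Finset.mem_univ v)]

lemma nbr_self (D : Data G m n s M t) (v : V) :
    ∑ u ∈ G.neighborFinset v, M u v = (G.degree v : ℤ) * (m + n - 1) + t v - 2 * m * n := by
  rw [D.rule, if_pos rfl, D.diag]

/-- The inequality of Cauchy and Schwarz for the number of far partners. -/
lemma cs (D : Data G m n s M t) (hN : (Fintype.card V : ℤ) = m + n)
    (hα : (((univ : Finset V).offDiag.filter fun p => M p.1 p.2 = -(s + 1)).card : ℤ) = m * m - m)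
    (hβ : (((univ : Finset V).offDiag.filter fun p => M p.1 p.2 = s - 1).card : ℤ) = n * n - n)
    (v : V) (hd : 1 ≤ (G.degree v : ℤ)) :
    m * n * (m + n - 1) - (G.degree v : ℤ) * (2 * m * n - (m + n - 1))
      ≤ (G.degree v : ℤ) * ((s + 1) * farC s M v - (s - 1) * nearC s M v) := by
  have hs := D.hs
  have hn := D.hn
  have hm := D.hm
  set d : ℤ := (G.degree v : ℤ) with hdd
  set z : V → ℤ := fun u => (m + n) * adj G v u - d with hz
  have hsa : ∑ u, adj G v u = d := by
    have := sum_nbr G v (fun _ => 1)
    rw [Finset.sum_const, G.card_neighborFinset_eq_degree, nsmul_eq_mul, mul_one] at this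
    simpa using this.symm
  have hz0 : ∑ u, z u = 0 := by
    rw [hz, Finset.sum_sub_distrib, ← Finset.mul_sum, hsa, Finset.sum_const, Finset.card_univ,
      nsmul_eq_mul, hN]; ring
  have hadj2 : ∀ u, adj G v u * adj G v u = adj G v u := by
    intro u; unfold adj; split_ifs <;> simp
  have hzz : ∑ u, z u * z u = (m + n) * (d * (m + n - d)) := by
    have : ∀ u, z u * z u = ((m + n) * (m + n) - 2 * (m + n) * d) * adj G v u + d * d := by
      intro u
      have := hadj2 u
      calc z u * z u = (m + n) * (m + n) * (adj G v u * adj G v u)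
            - 2 * (m + n) * d * adj G v u + d * d := by rw [hz]; ring
        _ = _ := by rw [this]; ring
    rw [Finset.sum_congr rfl fun u _ => this u, Finset.sum_add_distrib, ← Finset.mul_sum, hsa,
      Finset.sum_const, Finset.card_univ, nsmul_eq_mul, hN]; ring
  have hE := energy D hN z hz0
  set S : V → ℤ := fun u => ∑ w, M u w with hS
  -- y = M z
  have hy : ∀ u, ∑ w, M u w * z w
      = (m + n) * (d * M v u + t v - (if v = u then 2 * m * n else 0)) - d * S u := by
    intro u
    have e1 : ∑ w, M u w * adj G v w = d * M v u + t v - (if v = u then 2 * m * n else 0) := by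
      rw [← D.rule v u, sum_nbr G v (fun w => M w u)]
      refine Finset.sum_congr rfl fun w _ => ?_
      rw [D.symm u w]; ring
    rw [← e1, hS, Finset.mul_sum, Finset.mul_sum, ← Finset.sum_sub_distrib]
    refine Finset.sum_congr rfl fun w _ => ?_
    rw [hz]; ring
  have hsumy : ∑ u, ∑ w, M u w * z w
      = (m + n) * (d * S v + (m + n) * t v - 2 * m * n) - d * ∑ u, S u := by
    rw [Finset.sum_congr rfl fun u _ => hy u, Finset.sum_sub_distrib, ← Finset.mul_sum,
      ← Finset.mul_sum, Finset.sum_sub_distrib, Finset.sum_add_distrib, ← Finset.mul_sum,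
      Finset.sum_const, Finset.card_univ, nsmul_eq_mul, hN, Finset.sum_ite_eq,
      if_pos (Finset.mem_univ v)]
  have hnby : ∑ u, adj G v u * ∑ w, M u w * z w
      = (m + n) * (d * (d * (m + n - 1) + t v - 2 * m * n) + d * t v)
        - d * (d * S v + (m + n) * t v - 2 * m * n) := by
    rw [← sum_nbr G v (fun u => ∑ w, M u w * z w), Finset.sum_congr rfl fun u _ => hy u,
      Finset.sum_sub_distrib, ← Finset.mul_sum, ← Finset.mul_sum]
    have e2 : ∑ u ∈ G.neighborFinset v, (d * M v u + t v - (if v = u then 2 * m * n else 0))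
        = d * (d * (m + n - 1) + t v - 2 * m * n) + d * t v := by
      rw [Finset.sum_sub_distrib, Finset.sum_add_distrib, ← Finset.mul_sum, Finset.sum_const,
        G.card_neighborFinset_eq_degree, nsmul_eq_mul, Finset.sum_ite_eq,
        if_neg (by simp)]
      have : ∑ u ∈ G.neighborFinset v, M v u = d * (m + n - 1) + t v - 2 * m * n := by
        rw [← nbr_self D v]
        exact Finset.sum_congr rfl fun u _ => D.symm v u
      rw [this]; ring
    have e3 := nbr_row_sum D hN v
    rw [e2]
    have e4 : ∑ u ∈ G.neighborFinset v, S u = d * S v + (m + n) * t v - 2 * m * n := e3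
    rw [e4]
  have hq : ∑ u, z u * ∑ w, M u w * z w
      = (m + n) * ((m + n) * (d * (d * (m + n - 1) + t v - 2 * m * n) + d * t v)
        - d * (d * S v + (m + n) * t v - 2 * m * n))
        - d * ((m + n) * (d * S v + (m + n) * t v - 2 * m * n) - d * ∑ u, S u) := by
    rw [← hnby, ← hsumy, Finset.mul_sum, Finset.mul_sum, ← Finset.sum_sub_distrib]
    refine Finset.sum_congr rfl fun u _ => ?_
    rw [hz]; ring
  rw [hq, hzz] at hE
  have hSv : S v = (m + n - 1) + (s - 1) * nearC s M v - (s + 1) * farC s M v := row_sum D v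
  have hST : ∑ u, S u = (m + n) * (m + n - 1) + (s - 1) * (n * n - n) - (s + 1) * (m * m - m) := by
    have h1 : ∑ u, nearC s M u = n * n - n := by
      rw [← hβ]
      exact sum_count (M := M) (s - 1) (fun v => by rw [D.diag]; omega)
    have h2 : ∑ u, farC s M u = m * m - m := by
      rw [← hα]
      exact sum_count (M := M) (-(s + 1)) (fun v => by rw [D.diag]; omega)
    rw [Finset.sum_congr rfl fun u _ => row_sum D u, Finset.sum_sub_distrib,
      Finset.sum_add_distrib, ← Finset.mul_sum, ← Finset.mul_sum, h1, h2, Finset.sum_const,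
      Finset.card_univ, nsmul_eq_mul, hN]
  rw [hST, hSv] at hE
  set F := (s + 1) * farC s M v - (s - 1) * nearC s M v with hF
  have hN2 : 0 < m + n := by linarith
  -- divide by 2 (m+n)^2 d
  have key : (m + n) * ((m + n) * (d * (2 * (d * F
      - (m * n * (m + n - 1) - d * (2 * m * n - (m + n - 1))))))) ≥ 0 := by
    have : (m + n) * ((m + n) * (d * (2 * (d * F
      - (m * n * (m + n - 1) - d * (2 * m * n - (m + n - 1))))))) =
      (m + n) * ((m + n) *
          ((m + n) * (d * (d * (m + n - 1) + t v - 2 * m * n) + d * t v) -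
            d * (d * (m + n - 1 + (s - 1) * nearC s M v - (s + 1) * farC s M v)
              + (m + n) * t v - 2 * m * n)) -
        d * ((m + n) * (d * (m + n - 1 + (s - 1) * nearC s M v - (s + 1) * farC s M v)
          + (m + n) * t v - 2 * m * n) -
            d * ((m + n) * (m + n - 1) + (s - 1) * (n * n - n) - (s + 1) * (m * m - m))))
       - 2 * m * n * ((m + n) * (d * (m + n - d))) := by
      rw [hF, hm]; ring
    rw [this]
    linarith
  by_contra hlt
  push Not at hlt
  have h1 : 0 < (m + n) * ((m + n) * (d * 2)) := by positivity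
  have h2 : d * F - (m * n * (m + n - 1) - d * (2 * m * n - (m + n - 1))) < 0 := by linarith
  nlinarith [mul_neg_of_pos_of_neg h1 h2]

end Pool.Agent.H9.KB
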