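import Pool.Agent.H88.RS.Core

set_option autoImplicit false

/-!
The energy inequality `N zᵀ M z ≥ 2 m n |z|²` for sum-zero `z`, and the resulting lower bound for
the number of far partners of a vertex.
-/

namespace Pool.Agent.H9.KB

open Finset Pool.Agent.H88.RS

variable {V : Type*} [Fintype V] [DecidableEq V]

section energy
variable (G : SimpleGraph V) [DecidableRel G.Adj]

/-- adjacency as an integer -/
def adj (u v : V) : ℤ := if G.Adj u v then 1 else 0

lemma adj_symm (u v : V) : adj G u v = adj G v u := by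
  unfold adj
  simp [G.adj_comm]

lemma adj_nonneg (u v : V) : 0 ≤ adj G u v := by
  unfold adj; split_ifs <;> simp

lemma adj_le (u v : V) : adj G u v ≤ 1 := by
  unfold adj; split_ifs <;> simp

lemma sum_nbr (v : V) (f : V → ℤ) : ∑ u ∈ G.neighborFinset v, f u = ∑ u, adj G v u * f u := by
  rw [G.neighborFinset_eq_filter, Finset.sum_filter]
  refine Finset.sum_congr rfl fun u _ => ?_
  unfold adj
  split_ifs <;> simp

/-- the bilinear energy -/
def En (f g : V → ℤ) : ℤ := ∑ v, ∑ u, adj G v u * ((f v - f u) * (g v - g u))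

lemma En_eq (f g : V → ℤ) : En G f g = 2 * ∑ v, g v * ∑ u, adj G v u * (f v - f u) := by
  have h1 : En G f g = (∑ v, ∑ u, adj G v u * ((f v - f u) * g v))
      + ∑ v, ∑ u, adj G v u * ((f u - f v) * g u) := by
    unfold En
    rw [← Finset.sum_add_distrib]
    refine Finset.sum_congr rfl fun v _ => ?_
    rw [← Finset.sum_add_distrib]
    refine Finset.sum_congr rfl fun u _ => ?_
    ring
  have h2 : ∑ v, ∑ u, adj G v u * ((f u - f v) * g u)
      = ∑ v, ∑ u, adj G v u * ((f v - f u) * g v) := by
    rw [Finset.sum_comm]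
    refine Finset.sum_congr rfl fun v _ => ?_
    refine Finset.sum_congr rfl fun u _ => ?_
    rw [adj_symm]
  have h3 : ∑ v, ∑ u, adj G v u * ((f v - f u) * g v)
      = ∑ v, g v * ∑ u, adj G v u * (f v - f u) := by
    refine Finset.sum_congr rfl fun v _ => ?_
    rw [Finset.mul_sum]
    refine Finset.sum_congr rfl fun u _ => ?_
    ring
  rw [h1, h2, h3]; ring

lemma En_self_nonneg (f : V → ℤ) : 0 ≤ En G f f := by
  unfold En
  refine Finset.sum_nonneg fun v _ => Finset.sum_nonneg fun u _ => ?_
  exact mul_nonneg (adj_nonneg G v u) (mul_self_nonneg _)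

lemma En_self_le (f : V → ℤ) (hf : ∑ v, f v = 0) :
    En G f f ≤ 2 * (Fintype.card V : ℤ) * ∑ v, f v * f v := by
  have h1 : En G f f ≤ ∑ v, ∑ u, (f v - f u) * (f v - f u) := by
    unfold En
    refine Finset.sum_le_sum fun v _ => Finset.sum_le_sum fun u _ => ?_
    have := adj_le G v u
    nlinarith [mul_self_nonneg (f v - f u)]
  have h2 : ∑ v, ∑ u, (f v - f u) * (f v - f u)
      = 2 * (Fintype.card V : ℤ) * ∑ v, f v * f v := by
    have e : ∀ v, ∑ u, (f v - f u) * (f v - f u)
        = (Fintype.card V : ℤ) * (f v * f v) + ∑ u, f u * f u := by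
      intro v
      have : ∀ u, (f v - f u) * (f v - f u) = f v * f v + f u * f u - 2 * f v * f u := by
        intro u; ring
      have e2 : ∑ u, 2 * f v * f u = 2 * f v * ∑ u, f u := by rw [Finset.mul_sum]
      rw [Finset.sum_congr rfl fun u _ => this u, Finset.sum_sub_distrib, Finset.sum_add_distrib,
        e2, hf, Finset.sum_const, Finset.card_univ, nsmul_eq_mul]
      ring
    rw [Finset.sum_congr rfl fun v _ => e v, Finset.sum_add_distrib, ← Finset.mul_sum,
      Finset.sum_const, Finset.card_univ, nsmul_eq_mul]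
    ring
  rw [← h2]; exact h1

lemma En_comb (a b : ℤ) (f g : V → ℤ) :
    En G (fun v => a * f v - b * g v) (fun v => a * f v - b * g v)
      = a * a * En G f f - 2 * a * b * En G f g + b * b * En G g g := by
  unfold En
  simp only [Finset.mul_sum]
  rw [← Finset.sum_sub_distrib, ← Finset.sum_add_distrib]
  refine Finset.sum_congr rfl fun v _ => ?_
  rw [← Finset.sum_sub_distrib, ← Finset.sum_add_distrib]
  refine Finset.sum_congr rfl fun u _ => ?_
  ring

end energy

section data
variable {G : SimpleGraph V} [DecidableRel G.Adj] {m n s : ℤ} {M : V → V → ℤ} {t : V → ℤ}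

/-- `L (M z) = 2 m n z` for sum-zero `z`. -/
lemma lap_pot (D : Data G m n s M t) (z : V → ℤ) (hz : ∑ v, z v = 0) (v : V) :
    ∑ u, adj G v u * ((∑ w, M v w * z w) - ∑ w, M u w * z w) = 2 * m * n * z v := by
  have h1 : ∑ u, adj G v u * (∑ w, M v w * z w) = (G.degree v : ℤ) * ∑ w, M v w * z w := by
    rw [← sum_nbr G v (fun _ => ∑ w, M v w * z w), Finset.sum_const,
      G.card_neighborFinset_eq_degree, nsmul_eq_mul]
  have h2 : ∑ u, adj G v u * (∑ w, M u w * z w)
      = (G.degree v : ℤ) * (∑ w, M v w * z w) - 2 * m * n * z v := by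
    rw [← sum_nbr G v (fun u => ∑ w, M u w * z w), Finset.sum_comm]
    have e : ∀ w, ∑ u ∈ G.neighborFinset v, M u w * z w
        = (G.degree v : ℤ) * (M v w * z w) + t v * z w - (if v = w then 2 * m * n * z w else 0) := by
      intro w
      rw [← Finset.sum_mul, D.rule]
      split_ifs <;> ring
    rw [Finset.sum_congr rfl fun w _ => e w, Finset.sum_sub_distrib, Finset.sum_add_distrib,
      ← Finset.mul_sum, ← Finset.mul_sum, hz, Finset.sum_ite_eq, if_pos (Finset.mem_univ v)]
    ring
  have h3 : ∑ u, adj G v u * ((∑ w, M v w * z w) - ∑ w, M u w * z w)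
      = ∑ u, adj G v u * (∑ w, M v w * z w) - ∑ u, adj G v u * (∑ w, M u w * z w) := by
    rw [← Finset.sum_sub_distrib]
    refine Finset.sum_congr rfl fun u _ => ?_
    ring
  rw [h3, h1, h2]; ring

/-- The energy inequality. -/
lemma energy (D : Data G m n s M t) (hN : (Fintype.card V : ℤ) = m + n) (z : V → ℤ)
    (hz : ∑ v, z v = 0) :
    2 * m * n * ∑ v, z v * z v ≤ (m + n) * ∑ v, z v * ∑ w, M v w * z w := by
  have hs := D.hs
  have hn := D.hn
  have hm := D.hm
  set y : V → ℤ := fun v => ∑ w, M v w * z w with hy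
  set c : ℤ := 2 * m * n with hc
  set Q := ∑ v, z v * z v with hQ
  have hcpos : 0 < c := by rw [hc, hm]; positivity
  have hNpos : 0 < m + n := by linarith
  have e1 : En G y y = 2 * c * ∑ v, z v * y v := by
    rw [En_eq]
    have : ∀ v, y v * ∑ u, adj G v u * (y v - y u) = c * (z v * y v) := by
      intro v
      rw [hy, lap_pot D z hz v]; ring
    rw [Finset.sum_congr rfl fun v _ => this v, ← Finset.mul_sum]; ring
  have e2 : En G y z = 2 * c * Q := by
    rw [En_eq]
    have : ∀ v, z v * ∑ u, adj G v u * (y v - y u) = c * (z v * z v) := by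
      intro v
      rw [hy, lap_pot D z hz v]; ring
    rw [Finset.sum_congr rfl fun v _ => this v, ← Finset.mul_sum]; ring
  have e3 := En_self_le G z hz
  rw [hN] at e3
  have e4 := En_self_nonneg G (fun v => (m + n) * y v - c * z v)
  rw [En_comb, e1, e2] at e4
  have e5 : c * c * En G z z ≤ c * c * (2 * (m + n) * Q) :=
    mul_le_mul_of_nonneg_left e3 (by positivity)
  have e6 : 0 ≤ (m + n) * (2 * c) * ((m + n) * (∑ v, z v * y v) - c * Q) := by
    nlinarith
  have e7 : 0 ≤ (m + n) * (∑ v, z v * y v) - c * Q := by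
    by_contra hlt
    push Not at hlt
    have : 0 < (m + n) * (2 * c) := by positivity
    nlinarith
  linarith

/-- number of near partners -/
def nearC (s : ℤ) (M : V → V → ℤ) (v : V) : ℤ := ((univ.filter fun u => M v u = s - 1).card : ℤ)

/-- number of far partners -/
def farC (s : ℤ) (M : V → V → ℤ) (v : V) : ℤ :=
  ((univ.filter fun u => M v u = -(s + 1)).card : ℤ)

lemma row_sum (D : Data G m n s M t) (v : V) :
    ∑ u, M v u = (m + n - 1) + (s - 1) * nearC s M v - (s + 1) * farC s M v := by
  have hs := D.hs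
  have hn := D.hn
  have hm := D.hm
  have e : ∀ u, M v u = (if v = u then m + n - 1 else 0) + (s - 1) * (if M v u = s - 1 then 1 else 0)
      - (s + 1) * (if M v u = -(s + 1) then 1 else 0) := by
    intro u
    by_cases h : v = u
    · subst h
      rw [D.diag, if_pos rfl, if_neg (by omega), if_neg (by omega)]; ring
    · rw [if_neg h]
      rcases D.vals v u h with h1 | h1 | h1
      · rw [h1, if_pos rfl, if_neg (by omega)]; ring
      · rw [h1, if_neg (by omega), if_neg (by omega)]; ring
      · rw [h1, if_neg (by omega), if_pos rfl]; ring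
  rw [Finset.sum_congr rfl fun u _ => e u, Finset.sum_sub_distrib, Finset.sum_add_distrib,
    Finset.sum_ite_eq, if_pos (Finset.mem_univ v), ← Finset.mul_sum, ← Finset.mul_sum]
  unfold nearC farC
  rw [Finset.card_filter, Finset.card_filter]
  push_cast
  ring

lemma sum_count (c : ℤ) (hc : ∀ v, M v v ≠ c) :
    ∑ v, ((univ.filter fun u => M v u = c).card : ℤ)
      = (((univ : Finset V).offDiag.filter fun p => M p.1 p.2 = c).card : ℤ) := by
  have h1 : ((univ : Finset V).offDiag.filter fun p => M p.1 p.2 = c)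
      = ((univ : Finset (V × V)).filter fun p => M p.1 p.2 = c) := by
    ext ⟨a, b⟩
    simp only [mem_filter, mem_offDiag, mem_univ, true_and, and_iff_right_iff_imp]
    rintro h rfl
    exact hc a h
  rw [h1, Finset.card_filter, Fintype.sum_prod_type]
  push_cast
  refine Finset.sum_congr rfl fun v _ => ?_
  rw [Finset.card_filter]
  push_cast
  rfl

end data

end Pool.Agent.H9.KB
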