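import Pool.Agent.H9.KB.CS

set_option autoImplicit false

namespace Pool.Agent.H9.KB

open Finset Pool.Agent.H88.RS

variable {V : Type*} [Fintype V] [DecidableEq V]

/-- number of near partners -/
def nr (M : V → V → ℤ) (v : V) : ℤ := ((univ.filter fun u => M v u = 1).card : ℤ)
/-- number of far partners -/
def fr (M : V → V → ℤ) (v : V) : ℤ := ((univ.filter fun u => M v u = -3).card : ℤ)
/-- number of near neighbours -/
def an (G : SimpleGraph V) [DecidableRel G.Adj] (M : V → V → ℤ) (v : V) : ℤ :=
  (((G.neighborFinset v).filter fun u => M v u = 1).card : ℤ)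
/-- number of far neighbours -/
def cn (G : SimpleGraph V) [DecidableRel G.Adj] (M : V → V → ℤ) (v : V) : ℤ :=
  (((G.neighborFinset v).filter fun u => M v u = -3).card : ℤ)

/-- The data for `s = 2`. -/
structure Two (G : SimpleGraph V) [DecidableRel G.Adj] (n : ℤ) (M : V → V → ℤ) (t : V → ℤ) :
    Prop where
  hn : 3 ≤ n
  hN : (Fintype.card V : ℤ) = 2 * n + 2
  symm : ∀ u v, M u v = M v u
  diag : ∀ v, M v v = 2 * n + 1
  vals : ∀ u v, u ≠ v → M u v = 1 ∨ M u v = 0 ∨ M u v = -3
  rule : ∀ v w, ∑ u ∈ G.neighborFinset v, M u w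
    = (G.degree v : ℤ) * M v w + t v - (if v = w then 2 * n * (n + 2) else 0)
  nears : ∑ v, nr M v = n * n - n
  fars : ∑ v, fr M v = (n + 2) * (n + 1)
  cs : ∀ v, 1 ≤ (G.degree v : ℤ) →
    n * (n + 2) * (2 * n + 1) - (G.degree v : ℤ) * (2 * n * n + 2 * n - 1)
      ≤ (G.degree v : ℤ) * (3 * fr M v - nr M v)

section
variable {G : SimpleGraph V} [DecidableRel G.Adj] {n : ℤ} {M : V → V → ℤ} {t : V → ℤ}

lemma two_of_data (D : Data G (n + 2) n 2 M t) (hn : 3 ≤ n)
    (hN : (Fintype.card V : ℤ) = (n + 2) + n)
    (hα : (((univ : Finset V).offDiag.filter fun p => M p.1 p.2 = -(2 + 1)).card : ℤ)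
      = (n + 2) * (n + 2) - (n + 2))
    (hβ : (((univ : Finset V).offDiag.filter fun p => M p.1 p.2 = 2 - 1).card : ℤ) = n * n - n) :
    Two G n M t := by
  refine ⟨hn, by rw [hN]; ring, D.symm, fun v => by rw [D.diag]; ring, ?_, ?_, ?_, ?_, ?_⟩
  · intro u v h
    rcases D.vals u v h with h | h | h
    · left; rw [h]; norm_num
    · right; left; exact h
    · right; right; rw [h]; norm_num
  · intro v w
    rw [D.rule]
    congr 1
    split_ifs <;> ring
  · have := sum_count (M := M) (2 - 1) (fun v => by rw [D.diag]; omega)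
    rw [hβ] at this
    rw [← this]
    rfl
  · have := sum_count (M := M) (-(2 + 1)) (fun v => by rw [D.diag]; omega)
    rw [hα] at this
    have h2 : (n + 2) * (n + 1) = (n + 2) * (n + 2) - (n + 2) := by ring
    rw [h2, ← this]
    rfl
  · intro v hd
    have h := cs D hN hα hβ v hd
    have e1 : nearC 2 M v = nr M v := rfl
    have e2 : farC 2 M v = fr M v := rfl
    rw [e1, e2] at h
    linarith

variable (T : Two G n M t)
include T

lemma up {u w : V} (h : u ≠ w) : M u w ≤ 1 := by
  rcases T.vals u w h with h | h | h <;> omega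

lemma lo (u w : V) : -3 ≤ M u w := by
  have := T.hn
  by_cases h : u = w
  · subst h; rw [T.diag]; omega
  · rcases T.vals u w h with h | h | h <;> omega

lemma ne_near {u w : V} (h : M u w = 1) : u ≠ w := by
  rintro rfl
  have := T.hn; have := T.diag u; omega

lemma ne_far {u w : V} (h : M u w = -3) : u ≠ w := by
  rintro rfl
  have := T.hn; have := T.diag u; omega

lemma nr_nonneg (v : V) : 0 ≤ nr M v := by unfold nr; positivity
lemma fr_nonneg (v : V) : 0 ≤ fr M v := by unfold fr; positivity
lemma an_nonneg (v : V) : 0 ≤ an G M v := by unfold an; positivity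
lemma cn_nonneg (v : V) : 0 ≤ cn G M v := by unfold cn; positivity

lemma an_le_nr (v : V) : an G M v ≤ nr M v := by
  unfold an nr
  exact_mod_cast Finset.card_le_card (Finset.filter_subset_filter _ (Finset.subset_univ _))

lemma ac_le (v : V) : an G M v + cn G M v ≤ (G.degree v : ℤ) := by
  unfold an cn
  have h : Disjoint ((G.neighborFinset v).filter fun u => M v u = 1)
      ((G.neighborFinset v).filter fun u => M v u = -3) := by
    rw [Finset.disjoint_filter]
    intro x _ h1 h2
    omega
  have h2 := Finset.card_le_card (Finset.union_subset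
    (Finset.filter_subset (fun u => M v u = 1) (G.neighborFinset v))
    (Finset.filter_subset (fun u => M v u = -3) (G.neighborFinset v)))
  rw [Finset.card_union_of_disjoint h, G.card_neighborFinset_eq_degree] at h2
  exact_mod_cast h2

lemma nsum (v : V) : ∑ u ∈ G.neighborFinset v, M u v = an G M v - 3 * cn G M v := by
  have e : ∀ u ∈ G.neighborFinset v, M u v = (if M v u = 1 then 1 else 0)
      - 3 * (if M v u = -3 then 1 else 0) := by
    intro u hu
    have hne : u ≠ v := by
      rintro rfl
      simp at hu
    rw [T.symm v u]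
    rcases T.vals u v hne with h | h | h <;> rw [h] <;> norm_num
  rw [Finset.sum_congr rfl e, Finset.sum_sub_distrib, ← Finset.mul_sum]
  unfold an cn
  rw [Finset.card_filter, Finset.card_filter]
  push_cast
  ring

lemma tform (v : V) : t v = 2 * n * (n + 2) - (G.degree v : ℤ) * (2 * n + 1)
    + an G M v - 3 * cn G M v := by
  have h1 := T.rule v v
  rw [nsum T, if_pos rfl, T.diag] at h1
  linarith

/-- near partner -/
lemma near_le {v w : V} (h : M v w = 1) : t v ≤ 2 * n ∧ (¬ G.Adj v w → t v ≤ 0) := by
  have hne := ne_near T h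
  have h1 := T.rule v w
  rw [if_neg hne, h] at h1
  by_cases ha : G.Adj v w
  · refine ⟨?_, fun h => absurd ha h⟩
    have hw : w ∈ G.neighborFinset v := by simpa using ha
    rw [← Finset.add_sum_erase _ _ hw, T.diag] at h1
    have h2 : ∑ u ∈ (G.neighborFinset v).erase w, M u w ≤ ∑ u ∈ (G.neighborFinset v).erase w, 1 :=
      Finset.sum_le_sum fun u hu => up T (Finset.ne_of_mem_erase hu)
    rw [Finset.sum_const, Finset.card_erase_of_mem hw, G.card_neighborFinset_eq_degree,
      nsmul_eq_mul] at h2
    have h3 : 1 ≤ G.degree v := by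
      rw [← G.card_neighborFinset_eq_degree]; exact Finset.card_pos.2 ⟨w, hw⟩
    push_cast [h3] at h2
    linarith
  · have h2 : ∑ u ∈ G.neighborFinset v, M u w ≤ ∑ u ∈ G.neighborFinset v, 1 :=
      Finset.sum_le_sum fun u hu => up T (by
        rintro rfl; exact ha (by simpa using hu))
    rw [Finset.sum_const, G.card_neighborFinset_eq_degree, nsmul_eq_mul] at h2
    have := T.hn
    exact ⟨by linarith, fun _ => by linarith⟩

/-- far partner -/
lemma far_ge {v w : V} (h : M v w = -3) : 0 ≤ t v ∧ (G.Adj v w → 2 * n + 4 ≤ t v) := by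
  have hne := ne_far T h
  have h1 := T.rule v w
  rw [if_neg hne, h] at h1
  have h0 : ∑ u ∈ G.neighborFinset v, (M u w + 3) = t v := by
    rw [Finset.sum_add_distrib, h1, Finset.sum_const, G.card_neighborFinset_eq_degree,
      nsmul_eq_mul]; ring
  have hp : ∀ u ∈ G.neighborFinset v, 0 ≤ M u w + 3 := fun u _ => by
    have := lo T u w; omega
  refine ⟨by rw [← h0]; exact Finset.sum_nonneg hp, fun ha => ?_⟩
  have hw : w ∈ G.neighborFinset v := by simpa using ha
  have := Finset.single_le_sum hp hw
  rw [T.diag, h0] at this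
  linarith

lemma far_zero {v w : V} (h : M v w = -3) (ht : t v = 0) : ∀ u ∈ G.neighborFinset v, M u w = -3 := by
  have hne := ne_far T h
  have h1 := T.rule v w
  rw [if_neg hne, h] at h1
  have h0 : ∑ u ∈ G.neighborFinset v, (M u w + 3) = 0 := by
    rw [Finset.sum_add_distrib, h1, Finset.sum_const, G.card_neighborFinset_eq_degree,
      nsmul_eq_mul, ht]; ring
  intro u hu
  have := (Finset.sum_eq_zero_iff_of_nonneg (fun u _ => by
    have := lo T u w; omega)).1 h0 u hu
  linarith

lemma cn_pos {v : V} (h : 1 ≤ cn G M v) : 2 * n + 4 ≤ t v := by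
  have : 0 < ((G.neighborFinset v).filter fun u => M v u = -3).card := by
    unfold cn at h; exact_mod_cast h
  obtain ⟨u, hu⟩ := Finset.card_pos.1 this
  rw [Finset.mem_filter] at hu
  exact (far_ge T hu.2).2 (by simpa using hu.1)

/-- small degree: no near partner -/
lemma C1 {v w : V} (hd : (G.degree v : ℤ) ≤ n) : M v w ≠ 1 := by
  intro h
  have h1 := (near_le T h).1
  have h2 : cn G M v = 0 := by
    by_contra h3
    have := cn_nonneg T v
    have := cn_pos T (v := v) (by omega)
    linarith
  have h3 := tform T v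
  have h4 := an_nonneg T v
  have h5 := T.hn
  rw [h2] at h3
  nlinarith

lemma t_gt {v : V} (hd : (G.degree v : ℤ) ≤ n) : 2 * n + 1 ≤ t v := by
  have h5 := T.hn
  by_cases h2 : cn G M v = 0
  · have h3 := tform T v
    have h4 := an_nonneg T v
    rw [h2] at h3
    nlinarith
  · have := cn_nonneg T v
    have := cn_pos T (v := v) (by omega)
    linarith

/-- small degree: all the others that are not neighbours are far -/
lemma C2 {v u : V} (hd : (G.degree v : ℤ) ≤ n) (hne : v ≠ u) (ha : ¬ G.Adj v u) :
    M v u = -3 := by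
  rcases T.vals v u hne with h | h | h
  · exact absurd h (C1 T hd)
  · exfalso
    have h1 := T.rule v u
    rw [if_neg hne, h] at h1
    have h2 : ∑ w ∈ G.neighborFinset v, M w u ≤ ∑ w ∈ G.neighborFinset v, 1 :=
      Finset.sum_le_sum fun w hw => up T (by
        rintro rfl; exact ha (by simpa using hw))
    rw [Finset.sum_const, G.card_neighborFinset_eq_degree, nsmul_eq_mul] at h2
    have := t_gt T hd
    have := T.hn
    linarith
  · exact h

/-- small degree: number of far partners -/
lemma C3 {v : V} (hd : (G.degree v : ℤ) ≤ n) :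
    2 * n + 1 - (G.degree v : ℤ) + cn G M v ≤ fr M v := by
  have h1 : (univ.filter fun u => u ≠ v ∧ ¬ G.Adj v u) ∪
      ((G.neighborFinset v).filter fun u => M v u = -3) ⊆ univ.filter fun u => M v u = -3 := by
    intro u hu
    rw [Finset.mem_union, Finset.mem_filter, Finset.mem_filter] at hu
    rw [Finset.mem_filter]
    refine ⟨Finset.mem_univ _, ?_⟩
    rcases hu with ⟨-, h1, h2⟩ | ⟨-, h⟩
    · exact C2 T hd (Ne.symm h1) h2
    · exact h
  have h2 : Disjoint (univ.filter fun u => u ≠ v ∧ ¬ G.Adj v u)
      ((G.neighborFinset v).filter fun u => M v u = -3) := by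
    rw [Finset.disjoint_left]
    intro u hu hu'
    rw [Finset.mem_filter] at hu hu'
    exact hu.2.2 (by simpa using hu'.1)
  have h3 : (univ.filter fun u => u ≠ v ∧ ¬ G.Adj v u) = univ \ (insert v (G.neighborFinset v)) := by
    ext u
    simp
  have h4 : ((univ.filter fun u => u ≠ v ∧ ¬ G.Adj v u).card : ℤ) = 2 * n + 1 - (G.degree v : ℤ) := by
    rw [h3, Finset.card_sdiff_of_subset (Finset.subset_univ _), Finset.card_univ,
      Finset.card_insert_of_notMem (by simp), G.card_neighborFinset_eq_degree]
    have h5 : G.degree v + 1 ≤ Fintype.card V := by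
      have := G.degree_lt_card_verts v
      omega
    push_cast [h5]
    rw [T.hN]; ring
  have h5 := Finset.card_le_card h1
  rw [Finset.card_union_of_disjoint h2] at h5
  unfold fr cn
  rw [← h4]
  exact_mod_cast h5

lemma C5 {v : V} (hd : n + 1 ≤ (G.degree v : ℤ)) : cn G M v = 0 := by
  by_contra h
  have h0 := cn_nonneg T v
  have h1 := cn_pos T (v := v) (by omega)
  have h2 := tform T v
  have h3 := ac_le T v
  have h4 := T.hn
  have h5 : 1 ≤ cn G M v := by omega
  nlinarith

lemma C6 {v : V} (hd : (G.degree v : ℤ) = n + 1) : t v = n - 1 + an G M v := by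
  have h2 := tform T v
  rw [C5 T (by omega), hd] at h2
  linarith

/-- large degree: `t < 0` -/
lemma C7 {v : V} (hd : n + 2 ≤ (G.degree v : ℤ)) : t v < 0 := by
  have hn := T.hn
  by_contra hcon
  push Not at hcon
  have h2 := tform T v
  rw [C5 T (by omega)] at h2
  have h3 := ac_le T v
  rw [C5 T (by omega)] at h3
  have hd2 : (G.degree v : ℤ) = n + 2 := by
    nlinarith
  have ha : an G M v = n + 2 := by
    rw [hd2] at h2 h3
    linarith
  have ht : t v = 0 := by rw [h2, ha, hd2]; ring
  have hnear : ∀ u ∈ G.neighborFinset v, M v u = 1 := by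
    have : ((G.neighborFinset v).filter fun u => M v u = 1) = G.neighborFinset v := by
      apply Finset.eq_of_subset_of_card_le (Finset.filter_subset _ _)
      have h4 : (((G.neighborFinset v).filter fun u => M v u = 1).card : ℤ) = n + 2 := ha
      rw [G.card_neighborFinset_eq_degree]
      zify
      rw [h4, hd2]
    intro u hu
    rw [← this, Finset.mem_filter] at hu
    exact hu.2
  have hcs := T.cs v (by omega)
  have hnr := an_le_nr T v
  rw [hd2] at hcs
  have hfr : 0 < fr M v := by
    by_contra hf
    have : fr M v = 0 := le_antisymm (not_lt.1 hf) (fr_nonneg T v)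
    rw [this] at hcs
    nlinarith
  obtain ⟨w, hw⟩ := Finset.card_pos.1 (show 0 < (univ.filter fun u => M v u = -3).card by
    unfold fr at hfr; exact_mod_cast hfr)
  rw [Finset.mem_filter] at hw
  have hvw := hw.2
  have hfz := far_zero T hvw ht
  have hwv : M w v = -3 := by rw [T.symm]; exact hvw
  have hdisj : ∀ u ∈ G.neighborFinset v, u ∉ G.neighborFinset w := by
    intro u hu hu'
    have h4 := hfz u hu
    have h5 := (far_ge T h4).2 (by
      have : G.Adj w u := by simpa using hu'
      exact this.symm)
    have h6 := (near_le T (v := u) (w := v) (by rw [T.symm]; exact hnear u hu)).1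
    linarith
  have hvw' : w ∉ G.neighborFinset v := by
    intro h
    have := hnear w h
    omega
  have hwv' : v ∉ G.neighborFinset w := by
    intro h
    apply hvw'
    have : G.Adj w v := by simpa using h
    simpa using this.symm
  have hne := ne_far T hvw
  have hdw : (G.degree w : ℤ) ≤ n - 2 := by
    have h7 : Disjoint (insert v (G.neighborFinset v)) (insert w (G.neighborFinset w)) := by
      rw [Finset.disjoint_left]
      intro u hu hu'
      rw [Finset.mem_insert] at hu hu'
      rcases hu with rfl | hu <;> rcases hu' with rfl | hu'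
      · exact hne rfl
      · exact hwv' hu'
      · exact hvw' hu
      · exact hdisj u hu hu'
    have h8 := Finset.card_le_univ ((insert v (G.neighborFinset v)) ∪ (insert w (G.neighborFinset w)))
    rw [Finset.card_union_of_disjoint h7, Finset.card_insert_of_notMem (by simp),
      Finset.card_insert_of_notMem (by simp), G.card_neighborFinset_eq_degree,
      G.card_neighborFinset_eq_degree] at h8
    have h9 : (G.degree v : ℤ) + 1 + (G.degree w + 1) ≤ Fintype.card V := by exact_mod_cast h8
    rw [T.hN] at h9
    linarith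
  have hdw1 : 1 ≤ (G.degree w : ℤ) := by
    by_contra h
    have h0 : (G.degree w : ℤ) = 0 := by
      have : 0 ≤ (G.degree w : ℤ) := by positivity
      omega
    have h1 : G.neighborFinset w = ∅ := by
      rw [← Finset.card_eq_zero, G.card_neighborFinset_eq_degree]; exact_mod_cast h0
    have h4 := T.rule w v
    rw [h1, Finset.sum_empty, h0, if_neg (Ne.symm hne)] at h4
    have h5 := t_gt T (v := w) (by omega)
    linarith
  have hcs2 := T.cs w hdw1
  have hfw : fr M w ≤ 2 * n + 1 := by
    have h4 : (univ.filter fun u => M w u = -3) ⊆ univ.erase w := by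
      intro u hu
      rw [Finset.mem_filter] at hu
      rw [Finset.mem_erase]
      exact ⟨(ne_far T hu.2).symm, Finset.mem_univ _⟩
    have h5 := Finset.card_le_card h4
    rw [Finset.card_erase_of_mem (Finset.mem_univ _), Finset.card_univ] at h5
    unfold fr
    have h6 : ((Fintype.card V - 1 : ℕ) : ℤ) = 2 * n + 1 := by
      have : 1 ≤ Fintype.card V := Fintype.card_pos_iff.2 ⟨v⟩
      push_cast [this]
      rw [T.hN]; ring
    rw [← h6]; exact_mod_cast h5
  have hnw := nr_nonneg T w
  set d := (G.degree w : ℤ)
  have h10 : d * (3 * fr M w - nr M w) ≤ d * (6 * n + 3) := by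
    apply mul_le_mul_of_nonneg_left _ (by linarith)
    linarith
  have h11 : d * (2 * n * n + 8 * n + 2) ≤ (n - 2) * (2 * n * n + 8 * n + 2) :=
    mul_le_mul_of_nonneg_right hdw (by positivity)
  nlinarith

end

end Pool.Agent.H9.KB
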