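import Pool.Agent.H9.KB.Two

set_option autoImplicit false

namespace Pool.Agent.H9.KB

open Finset Pool.Agent.H88.RS

variable {V : Type*} [Fintype V] [DecidableEq V]

section
variable {G : SimpleGraph V} [DecidableRel G.Adj] {n : ℤ} {M : V → V → ℤ} {t : V → ℤ}
variable (T : Two G n M t)
include T

lemma nr_pos {v w : V} (h : M v w = 1) : 1 ≤ nr M v := by
  unfold nr
  have : 0 < (univ.filter fun u => M v u = 1).card :=
    Finset.card_pos.2 ⟨w, by simp [h]⟩
  omega

lemma fr_pos {v w : V} (h : M v w = -3) : 1 ≤ fr M v := by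
  unfold fr
  have : 0 < (univ.filter fun u => M v u = -3).card :=
    Finset.card_pos.2 ⟨w, by simp [h]⟩
  omega

lemma cn_ge {v w : V} (h : M v w = -3) (ha : G.Adj v w) : 1 ≤ cn G M v := by
  unfold cn
  have : 0 < ((G.neighborFinset v).filter fun u => M v u = -3).card :=
    Finset.card_pos.2 ⟨w, by simp [h, ha]⟩
  omega

/-- the complete bipartite case -/
lemma done {v : V} (hd : (G.degree v : ℤ) = n) (hc : cn G M v = 0) {x w w' : V}
    (hf : M x w = -3) (hnr : M x w' = 1) : False := by
  have hn := T.hn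
  have ht : t v = 3 * n := by
    have h1 := tform T v
    have h2 : an G M v = 0 := by
      unfold an
      rw [Finset.filter_false_of_mem (fun u _ => C1 T (by omega))]
      simp
    rw [hd, hc, h2] at h1
    rw [h1]; ring
  have hmid : ∀ u ∈ G.neighborFinset v, M v u = 0 := by
    intro u hu
    have ha : G.Adj v u := by simpa using hu
    rcases T.vals v u ha.ne with h | h | h
    · exact absurd h (C1 T (by omega))
    · exact h
    · have := cn_ge T h ha; omega
  have hcl : ∀ u ∈ G.neighborFinset v, ∀ y ∈ G.neighborFinset v, y ≠ u → M y u = 1 := by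
    intro u hu
    have h1 := T.rule v u
    have hne : v ≠ u := by
      rintro rfl
      simp at hu
    rw [if_neg hne, hmid u hu, ht, ← Finset.add_sum_erase _ _ hu, T.diag] at h1
    have h2 : ∑ y ∈ (G.neighborFinset v).erase u, (1 - M y u) = 0 := by
      rw [Finset.sum_sub_distrib, Finset.sum_const, Finset.card_erase_of_mem hu,
        G.card_neighborFinset_eq_degree, nsmul_eq_mul]
      have h3 : 1 ≤ G.degree v := by
        rw [← G.card_neighborFinset_eq_degree]; exact Finset.card_pos.2 ⟨u, hu⟩
      push_cast [h3]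
      rw [hd]
      linarith
    intro y hy hyu
    have h3 := (Finset.sum_eq_zero_iff_of_nonneg (fun y hy => by
      have := up T (Finset.ne_of_mem_erase hy); omega)).1 h2 y (Finset.mem_erase.2 ⟨hyu, hy⟩)
    omega
  have hnrN : ∀ u ∈ G.neighborFinset v, n - 1 ≤ nr M u := by
    intro u hu
    have h1 : (G.neighborFinset v).erase u ⊆ univ.filter fun y => M u y = 1 := by
      intro y hy
      rw [Finset.mem_filter]
      refine ⟨Finset.mem_univ _, ?_⟩
      rw [T.symm]
      exact hcl u hu y (Finset.mem_of_mem_erase hy) (Finset.ne_of_mem_erase hy)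
    have h2 := Finset.card_le_card h1
    rw [Finset.card_erase_of_mem hu, G.card_neighborFinset_eq_degree] at h2
    unfold nr
    have h3 : 1 ≤ G.degree v := by
      rw [← G.card_neighborFinset_eq_degree]; exact Finset.card_pos.2 ⟨u, hu⟩
    have h4 : ((G.degree v - 1 : ℕ) : ℤ) = n - 1 := by push_cast [h3]; rw [hd]
    rw [← h4]; exact_mod_cast h2
  have hout : ∀ y, y ∉ G.neighborFinset v → ∀ z, M y z ≠ 1 := by
    intro y hy z hz
    have h1 := nr_pos T hz
    have h2 : ∑ u ∈ insert y (G.neighborFinset v), nr M u ≤ ∑ u, nr M u :=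
      Finset.sum_le_univ_sum_of_nonneg (fun u => nr_nonneg T u)
    rw [Finset.sum_insert hy, T.nears] at h2
    have h3 : ∑ u ∈ G.neighborFinset v, (n - 1) ≤ ∑ u ∈ G.neighborFinset v, nr M u :=
      Finset.sum_le_sum hnrN
    rw [Finset.sum_const, G.card_neighborFinset_eq_degree, nsmul_eq_mul, hd] at h3
    linarith
  have hx : x ∈ G.neighborFinset v := by
    by_contra h
    exact hout x h w' hnr
  have hw : w ∉ G.neighborFinset v := by
    intro h
    by_cases hxw : x = w
    · subst hxw; exact ne_far T hf rfl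
    · have := hcl w h x hx hxw; omega
  have hwv : v ≠ w := by
    rintro rfl
    have := hmid x hx
    rw [T.symm] at this
    omega
  have hvw : M v w = -3 := C2 T (by omega) hwv (by simpa using hw)
  have h1 := T.rule v w
  rw [if_neg hwv, hvw, ht, hd] at h1
  have h2 : ∑ u ∈ G.neighborFinset v, M u w ≤ -3 := by
    rw [← Finset.add_sum_erase _ _ hx, hf]
    have : ∑ u ∈ (G.neighborFinset v).erase x, M u w ≤ 0 := by
      refine Finset.sum_nonpos fun u hu => ?_
      have hu' := Finset.mem_of_mem_erase hu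
      have hne : u ≠ w := by rintro rfl; exact hw hu'
      rcases T.vals u w hne with h | h | h
      · exact absurd (by rw [T.symm]; exact h) (hout w hw u)
      · omega
      · omega
    linarith
  linarith

/-- the sum of `t` -/
lemma sumt : ∑ v, t v = 2 * n * (n + 2) := by
  obtain ⟨w⟩ : Nonempty V := by
    have := T.hN
    have := T.hn
    rw [← Fintype.card_pos_iff]
    by_contra h
    have h0 : Fintype.card V = 0 := by omega
    rw [h0] at *
    push_cast at *
    omega
  have h1 : ∑ v, ∑ u ∈ G.neighborFinset v, M u w = ∑ v, (G.degree v : ℤ) * M v w := by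
    have e1 : ∀ v, ∑ u ∈ G.neighborFinset v, M u w = ∑ u, adj G v u * M u w := fun v =>
      sum_nbr G v (fun u => M u w)
    rw [Finset.sum_congr rfl fun v _ => e1 v, Finset.sum_comm]
    refine Finset.sum_congr rfl fun u _ => ?_
    rw [← Finset.sum_mul]
    congr 1
    have := sum_nbr G u (fun _ => 1)
    rw [Finset.sum_const, G.card_neighborFinset_eq_degree, nsmul_eq_mul, mul_one] at this
    rw [this]
    refine Finset.sum_congr rfl fun v _ => ?_
    rw [adj_symm]; ring
  rw [Finset.sum_congr rfl fun v _ => T.rule v w, Finset.sum_sub_distrib, Finset.sum_add_distrib,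
    Finset.sum_ite_eq', if_pos (Finset.mem_univ w)] at h1
  linarith

/-- no far partners for large degrees -/
lemma Wnf {x u : V} (hx : n + 2 ≤ (G.degree x : ℤ)) : M x u ≠ -3 := by
  intro h
  have h1 := (far_ge T h).1
  have h2 := C7 T hx
  omega

lemma Wge {x u : V} (hx : n + 2 ≤ (G.degree x : ℤ)) (hne : u ≠ x) : M u x = 1 ∨ M u x = 0 := by
  rcases T.vals u x hne with h | h | h
  · exact Or.inl h
  · exact Or.inr h
  · rw [T.symm] at h
    exact absurd h (Wnf T hx)

lemma Wge0 {x : V} (u : V) (hx : n + 2 ≤ (G.degree x : ℤ)) : 0 ≤ M u x := by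
  have := T.hn
  by_cases h : u = x
  · subst h; rw [T.diag]; omega
  · rcases Wge T hx h with h | h <;> omega

lemma Wnear {x u : V} (hx : n + 2 ≤ (G.degree x : ℤ)) (hu : n + 2 ≤ (G.degree u : ℤ))
    (hne : x ≠ u) : M x u = 1 ∧ ¬ G.Adj x u := by
  have hn := T.hn
  have h0 : 0 ≤ ∑ w ∈ G.neighborFinset x, M w u := Finset.sum_nonneg fun w _ => Wge0 T w hu
  have h1 := T.rule x u
  rw [if_neg hne] at h1
  have h2 := C7 T hx
  have h3 : M x u = 1 := by
    rcases Wge T hu hne with h | h
    · exact h
    · rw [h] at h1; linarith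
  refine ⟨h3, fun ha => ?_⟩
  have hu' : u ∈ G.neighborFinset x := by simpa using ha
  have h4 := Finset.single_le_sum (f := fun w => M w u) (s := G.neighborFinset x)
    (fun w _ => Wge0 T w hu) hu'
  simp only [T.diag] at h4
  rw [h1, h3] at h4
  have h5 := tform T x
  rw [C5 T (by omega)] at h5
  have h6 := ac_le T x
  have h7 := cn_nonneg T x
  nlinarith

lemma PWadj {v x : V} (hv : (G.degree v : ℤ) = n + 1) (hx : n + 2 ≤ (G.degree x : ℤ))
    (ha : G.Adj v x) : M v x = 1 := by
  have hn := T.hn
  rcases Wge T hx ha.ne with h | h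
  · exact h
  · exfalso
    have h1 := T.rule v x
    rw [if_neg ha.ne, h] at h1
    have hx' : x ∈ G.neighborFinset v := by simpa using ha
    have h4 := Finset.single_le_sum (f := fun w => M w x) (s := G.neighborFinset v)
      (fun w _ => Wge0 T w hx) hx'
    simp only [T.diag] at h4
    have h5 := C6 T hv
    have h6 := ac_le T v
    have h7 := cn_nonneg T v
    rw [hv] at h6
    linarith

lemma Pnear {v x : V} (hv : (G.degree v : ℤ) = n + 1) (h : M v x = 1) : G.Adj v x := by
  by_contra ha
  have h1 := (near_le T h).2 ha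
  have h2 := C6 T hv
  have h3 := an_nonneg T v
  have h4 := T.hn
  linarith

lemma FW {v x : V} (hv : (G.degree v : ℤ) ≤ n) (hx : n + 2 ≤ (G.degree x : ℤ)) :
    M v x = 0 ∧ G.Adj v x := by
  have hne : v ≠ x := by
    rintro rfl
    omega
  have h1 : M v x = 0 := by
    rcases Wge T hx hne with h | h
    · exact absurd h (C1 T hv)
    · exact h
  refine ⟨h1, ?_⟩
  by_contra ha
  have := C2 T hv hne ha
  omega

lemma trich (v : V) : (G.degree v : ℤ) ≤ n ∨ (G.degree v : ℤ) = n + 1 ∨
    n + 2 ≤ (G.degree v : ℤ) := by omega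

/-- near partners of large vertices among the others are adjacent -/
lemma near_type {x w : V} (hx : n + 2 ≤ (G.degree x : ℤ)) (h : M w x = 1) :
    ((G.degree w : ℤ) = n + 1 ∧ G.Adj w x) ∨ n + 2 ≤ (G.degree w : ℤ) := by
  rcases trich T w with h1 | h1 | h1
  · exact absurd h (C1 T h1)
  · exact Or.inl ⟨h1, Pnear T h1 h⟩
  · exact Or.inr h1

lemma nrP {v : V} (hv : (G.degree v : ℤ) = n + 1) : nr M v = an G M v := by
  unfold nr an
  congr 2
  ext u
  simp only [mem_filter, mem_univ, true_and, SimpleGraph.mem_neighborFinset]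
  exact ⟨fun h => ⟨Pnear T hv h, h⟩, fun h => h.2⟩

lemma nrF {v : V} (hv : (G.degree v : ℤ) ≤ n) : nr M v = 0 := by
  unfold nr
  rw [Finset.filter_false_of_mem (fun u _ => C1 T hv)]
  simp

lemma anF {v : V} (hv : (G.degree v : ℤ) ≤ n) : an G M v = 0 := by
  unfold an
  rw [Finset.filter_false_of_mem (fun u _ => C1 T hv)]
  simp

lemma frW {v : V} (hv : n + 2 ≤ (G.degree v : ℤ)) : fr M v = 0 := by
  unfold fr
  rw [Finset.filter_false_of_mem (fun u _ => Wnf T hv)]
  simp

/-- the bound for the near partners of a vertex of degree `n + 2` -/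
lemma nrW {x : V} (hx : (G.degree x : ℤ) = n + 2) : nr M x ≤ n - 1 := by
  have hn := T.hn
  have h := T.cs x (by omega)
  rw [hx, frW T (by omega)] at h
  nlinarith

end

end Pool.Agent.H9.KB
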