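import Pool.Agent.H9.KB.Two2

set_option autoImplicit false

namespace Pool.Agent.H9.KB

open Finset Pool.Agent.H88.RS

variable {V : Type*} [Fintype V] [DecidableEq V]

/-- vertices of degree at most `n` -/
def FF (G : SimpleGraph V) [DecidableRel G.Adj] (n : ℤ) : Finset V :=
  univ.filter fun v => (G.degree v : ℤ) ≤ n
/-- vertices of degree `n + 1` -/
def PP (G : SimpleGraph V) [DecidableRel G.Adj] (n : ℤ) : Finset V :=
  univ.filter fun v => (G.degree v : ℤ) = n + 1
/-- vertices of degree at least `n + 2` -/
def WW (G : SimpleGraph V) [DecidableRel G.Adj] (n : ℤ) : Finset V :=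
  univ.filter fun v => n + 2 ≤ (G.degree v : ℤ)

section
variable {G : SimpleGraph V} [DecidableRel G.Adj] {n : ℤ} {M : V → V → ℤ} {t : V → ℤ}
variable (T : Two G n M t)
include T

lemma parts : ((FF G n).card : ℤ) + ((PP G n).card : ℤ) + ((WW G n).card : ℤ) = 2 * n + 2 := by
  unfold FF PP WW
  rw [Finset.card_filter, Finset.card_filter, Finset.card_filter, ← T.hN]
  push_cast
  rw [← Finset.sum_add_distrib, ← Finset.sum_add_distrib]
  have : ∀ v : V, (if (G.degree v : ℤ) ≤ n then (1 : ℤ) else 0)
      + (if (G.degree v : ℤ) = n + 1 then 1 else 0) + (if n + 2 ≤ (G.degree v : ℤ) then 1 else 0)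
      = 1 := by
    intro v
    rcases trich T v with h | h | h
    · rw [if_pos h, if_neg (by omega), if_neg (by omega)]; norm_num
    · rw [if_neg (by omega), if_pos h, if_neg (by omega)]; norm_num
    · rw [if_neg (by omega), if_neg (by omega), if_pos h]; norm_num
  rw [Finset.sum_congr rfl fun v _ => this v]
  simp

lemma frF (hnd : ∀ v, (G.degree v : ℤ) = n → cn G M v ≠ 0) {v : V}
    (hv : (G.degree v : ℤ) ≤ n) : n + 2 ≤ fr M v := by
  have h1 := C3 T hv
  have h2 := cn_nonneg T v
  by_cases h : (G.degree v : ℤ) = n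
  · have := hnd v h
    omega
  · omega

lemma cardF (hnd : ∀ v, (G.degree v : ℤ) = n → cn G M v ≠ 0) :
    ((FF G n).card : ℤ) ≤ n + 1 := by
  have hn := T.hn
  have h1 : ∑ v ∈ FF G n, (n + 2) ≤ ∑ v ∈ FF G n, fr M v :=
    Finset.sum_le_sum fun v hv => frF T hnd (by
      unfold FF at hv; rw [Finset.mem_filter] at hv; exact hv.2)
  have h2 : ∑ v ∈ FF G n, fr M v ≤ ∑ v, fr M v :=
    Finset.sum_le_univ_sum_of_nonneg (fun u => fr_nonneg T u)
  rw [T.fars] at h2
  rw [Finset.sum_const, nsmul_eq_mul] at h1
  by_contra h
  push Not at h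
  nlinarith

lemma nr_le (v : V) : nr M v ≤ n * n - n := by
  rw [← T.nears]
  exact Finset.single_le_sum (fun u _ => nr_nonneg T u) (Finset.mem_univ v)

/-- two large vertices: the degree is `n + 2` -/
lemma degW {x u : V} (hx : n + 2 ≤ (G.degree x : ℤ)) (hu : n + 2 ≤ (G.degree u : ℤ))
    (hne : x ≠ u) : (G.degree x : ℤ) = n + 2 := by
  have hn := T.hn
  obtain ⟨hnear, hna⟩ := Wnear T hx hu hne
  have h1 := T.rule x u
  rw [if_neg hne, hnear] at h1
  have h0 : 0 ≤ ∑ w ∈ G.neighborFinset x, M w u := Finset.sum_nonneg fun w _ => Wge0 T w hu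
  have h2 := tform T x
  rw [C5 T (by omega)] at h2
  have h3 := ac_le T x
  have h4 := cn_nonneg T x
  have h5 : an G M x + 1 ≤ nr M x := by
    have h6 : insert u ((G.neighborFinset x).filter fun w => M x w = 1) ⊆
        univ.filter fun w => M x w = 1 := by
      intro w hw
      rw [Finset.mem_insert, Finset.mem_filter] at hw
      rw [Finset.mem_filter]
      rcases hw with rfl | hw
      · exact ⟨Finset.mem_univ _, hnear⟩
      · exact ⟨Finset.mem_univ _, hw.2⟩
    have h7 := Finset.card_le_card h6
    rw [Finset.card_insert_of_notMem (by simp [hna])] at h7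
    unfold an nr
    exact_mod_cast h7
  have h6 := nr_le T x
  by_contra hd
  have hd3 : n + 3 ≤ (G.degree x : ℤ) := by omega
  have h7 : 2 * n ≤ an G M x := by nlinarith
  have h8 : n ≤ 3 := by nlinarith
  have h9 : n = 3 := by omega
  subst h9
  omega

lemma transfer0 {x u : V} (hx : n + 2 ≤ (G.degree x : ℤ)) (hu : n + 2 ≤ (G.degree u : ℤ))
    (hne : x ≠ u) : ∀ w ∈ G.neighborFinset x, M w u = if M x w = 1 then 1 else 0 := by
  have hn := T.hn
  have hd := degW T hx hu hne
  obtain ⟨hnear, hna⟩ := Wnear T hx hu hne
  have h1 := T.rule x u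
  rw [if_neg hne, hnear] at h1
  have h2 := tform T x
  rw [C5 T (by omega), hd] at h2
  have hpt : ∀ w ∈ G.neighborFinset x, 0 ≤ (if M x w = 1 then (1 : ℤ) else 0) - M w u := by
    intro w hw
    have haw : G.Adj x w := by simpa using hw
    have hwu : w ≠ u := by rintro rfl; exact hna haw
    rcases Wge T hu hwu with h | h
    · rw [h]
      have h3 : M x w = 1 := by
        rcases near_type T hu h with ⟨h4, -⟩ | h4
        · rw [T.symm]
          exact PWadj T h4 hx haw.symm
        · exact absurd haw (Wnear T hx h4 haw.ne).2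
      rw [if_pos h3]; norm_num
    · rw [h]; split_ifs <;> norm_num
  have hsum : ∑ w ∈ G.neighborFinset x, ((if M x w = 1 then (1 : ℤ) else 0) - M w u) = 0 := by
    rw [Finset.sum_sub_distrib, h1]
    have : ∑ w ∈ G.neighborFinset x, (if M x w = 1 then (1 : ℤ) else 0) = an G M x := by
      unfold an
      rw [Finset.card_filter]; push_cast; rfl
    rw [this, hd]
    linarith
  intro w hw
  have := (Finset.sum_eq_zero_iff_of_nonneg hpt).1 hsum w hw
  linarith

lemma transfer {v x u : V} (hv : (G.degree v : ℤ) = n + 1) (hx : n + 2 ≤ (G.degree x : ℤ))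
    (hu : n + 2 ≤ (G.degree u : ℤ)) (hne : x ≠ u) (h : M v x = 1) : M v u = 1 := by
  have ha := Pnear T hv h
  have h1 := transfer0 T hx hu hne v (by simpa using ha.symm)
  rw [if_pos (by rw [T.symm]; exact h)] at h1
  exact h1

/-- at least two large vertices -/
lemma caseA (hnd : ∀ v, (G.degree v : ℤ) = n → cn G M v ≠ 0) {x u : V}
    (hx : n + 2 ≤ (G.degree x : ℤ)) (hu : n + 2 ≤ (G.degree u : ℤ)) (hne : x ≠ u) : False := by
  have hn := T.hn
  have hd := degW T hx hu hne
  have hW2 : 2 ≤ ((WW G n).card : ℤ) := by
    have h1 : ({x, u} : Finset V) ⊆ WW G n := by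
      intro w hw
      rw [Finset.mem_insert, Finset.mem_singleton] at hw
      unfold WW
      rw [Finset.mem_filter]
      rcases hw with rfl | rfl
      · exact ⟨Finset.mem_univ _, hx⟩
      · exact ⟨Finset.mem_univ _, hu⟩
    have h2 := Finset.card_le_card h1
    rw [Finset.card_pair hne] at h2
    exact_mod_cast h2
  have hnr : an G M x + (((WW G n).card : ℤ) - 1) ≤ nr M x := by
    have hxW : x ∈ WW G n := by unfold WW; rw [Finset.mem_filter]; exact ⟨Finset.mem_univ _, hx⟩
    have h1 : ((G.neighborFinset x).filter fun w => M x w = 1) ∪ (WW G n).erase x ⊆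
        univ.filter fun w => M x w = 1 := by
      intro w hw
      rw [Finset.mem_union, Finset.mem_filter, Finset.mem_erase] at hw
      rw [Finset.mem_filter]
      refine ⟨Finset.mem_univ _, ?_⟩
      rcases hw with hw | ⟨hw1, hw2⟩
      · exact hw.2
      · unfold WW at hw2
        rw [Finset.mem_filter] at hw2
        exact (Wnear T hx hw2.2 (Ne.symm hw1)).1
    have h2 : Disjoint ((G.neighborFinset x).filter fun w => M x w = 1) ((WW G n).erase x) := by
      rw [Finset.disjoint_left]
      intro w hw hw'
      rw [Finset.mem_filter] at hw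
      rw [Finset.mem_erase] at hw'
      unfold WW at hw'
      rw [Finset.mem_filter] at hw'
      exact (Wnear T hx hw'.2.2 (Ne.symm hw'.1)).2 (by simpa using hw.1)
    have h3 := Finset.card_le_card h1
    rw [Finset.card_union_of_disjoint h2, Finset.card_erase_of_mem hxW] at h3
    unfold an nr
    have h4 : 1 ≤ (WW G n).card := Finset.card_pos.2 ⟨x, hxW⟩
    have h5 : (((WW G n).card - 1 : ℕ) : ℤ) = ((WW G n).card : ℤ) - 1 := by push_cast [h4]; ring
    rw [← h5]; exact_mod_cast h3
  have hnrx := nrW T hd
  have hall : ∀ v, (G.degree v : ℤ) = n + 1 → M v x = 1 := by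
    intro v hv
    by_contra hcon
    have hvx : v ≠ x := by rintro rfl; omega
    have h0 : M v x = 0 := by
      rcases Wge T hx hvx with h | h
      · exact absurd h hcon
      · exact h
    have hna : ¬ G.Adj v x := fun h => hcon (PWadj T hv hx h)
    have h1 := T.rule v x
    rw [if_neg hvx, h0, C6 T hv] at h1
    have h2 : ∑ w ∈ G.neighborFinset v, M w x ≤ an G M x := by
      have e1 : ∑ w ∈ G.neighborFinset v, M w x
          = (((G.neighborFinset v).filter fun w => M w x = 1).card : ℤ) := by
        rw [Finset.card_filter]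
        push_cast
        refine Finset.sum_congr rfl fun w hw => ?_
        have hwx : w ≠ x := by rintro rfl; exact hna (by simpa using hw)
        rcases Wge T hx hwx with h | h <;> rw [h] <;> norm_num
      rw [e1]
      unfold an
      have : ((G.neighborFinset v).filter fun w => M w x = 1) ⊆
          (G.neighborFinset x).filter fun w => M x w = 1 := by
        intro w hw
        rw [Finset.mem_filter] at hw ⊢
        have haw : G.Adj v w := by simpa using hw.1
        rcases near_type T hx hw.2 with ⟨h4, h5⟩ | h4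
        · exact ⟨by simpa using h5.symm, by rw [T.symm]; exact hw.2⟩
        · exfalso
          have hwx : w ≠ x := by rintro rfl; exact hna haw
          exact hcon (transfer T hv h4 hx hwx (PWadj T hv h4 haw))
      exact_mod_cast Finset.card_le_card this
    have h3 := an_nonneg T v
    linarith
  have hP : ((PP G n).card : ℤ) ≤ an G M x := by
    unfold an
    have : PP G n ⊆ (G.neighborFinset x).filter fun w => M x w = 1 := by
      intro w hw
      unfold PP at hw
      rw [Finset.mem_filter] at hw ⊢
      have h1 := hall w hw.2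
      exact ⟨by simpa using (Pnear T hw.2 h1).symm, by rw [T.symm]; exact h1⟩
    exact_mod_cast Finset.card_le_card this
  have h1 := parts T
  have h2 := cardF T hnd
  linarith

/-- no large vertices -/
lemma caseC (hnd : ∀ v, (G.degree v : ℤ) = n → cn G M v ≠ 0)
    (hW : ∀ v, (G.degree v : ℤ) ≤ n + 1) : False := by
  have hn := T.hn
  have hF : ∀ v, (G.degree v : ℤ) ≤ n → 2 * n + 4 ≤ t v := by
    intro v hv
    by_cases h : cn G M v = 0
    · have h1 : (G.degree v : ℤ) ≠ n := fun h' => hnd v h' h
      have h2 := tform T v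
      rw [h, anF T hv] at h2
      have h3 : (G.degree v : ℤ) ≤ n - 1 := by omega
      have h4 := mul_le_mul_of_nonneg_right h3 (show 0 ≤ 2 * n + 1 by linarith)
      nlinarith
    · have := cn_nonneg T v
      exact cn_pos T (by omega)
  have hsum : ∑ v, (t v - (n - 1) - nr M v) = - n * n + 5 * n + 2 := by
    rw [Finset.sum_sub_distrib, Finset.sum_sub_distrib, sumt T, T.nears, Finset.sum_const,
      Finset.card_univ, nsmul_eq_mul, T.hN]
    ring
  have hterm : ∀ v, 0 ≤ t v - (n - 1) - nr M v := by
    intro v
    rcases trich T v with h | h | h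
    · have := hF v h
      rw [nrF T h]; linarith
    · rw [C6 T h, nrP T h]; linarith
    · have := hW v; omega
  by_cases hex : ∃ v, (G.degree v : ℤ) ≤ n
  · obtain ⟨v, hv⟩ := hex
    have h1 := Finset.single_le_sum (f := fun v => t v - (n - 1) - nr M v) (s := univ)
      (fun v _ => hterm v) (Finset.mem_univ v)
    rw [hsum, nrF T hv] at h1
    have h2 := hF v hv
    have h3 : n = 3 := by
      have : (n - 1) * (n - 3) ≤ 0 := by nlinarith
      have h4 : n - 3 ≤ 0 := by
        by_contra h
        push Not at h
        nlinarith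
      omega
    subst h3
    have h4 := tform T v
    rw [anF T hv] at h4
    have h5 := ac_le T v
    rw [anF T hv] at h5
    have h6 := cn_nonneg T v
    have h7 : (G.degree v : ℤ) = 2 ∧ cn G M v = 2 := by
      have h8 : 0 ≤ (G.degree v : ℤ) := by positivity
      constructor <;> omega
    have h8 := T.cs v (by omega)
    rw [h7.1] at h8
    have h9 := nr_nonneg T v
    have h10 : fr M v ≤ 7 := by
      have h4 : (univ.filter fun u => M v u = -3) ⊆ univ.erase v := by
        intro u hu
        rw [Finset.mem_filter] at hu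
        rw [Finset.mem_erase]
        exact ⟨(ne_far T hu.2).symm, Finset.mem_univ _⟩
      have h5 := Finset.card_le_card h4
      rw [Finset.card_erase_of_mem (Finset.mem_univ _), Finset.card_univ] at h5
      have h6 := T.hN
      unfold fr
      omega
    linarith
  · push Not at hex
    have h1 : ∀ v, t v - (n - 1) - nr M v = 0 := by
      intro v
      have h2 : (G.degree v : ℤ) = n + 1 := by
        have := hex v
        have := hW v
        omega
      rw [C6 T h2, nrP T h2]; ring
    rw [Finset.sum_congr rfl fun v _ => h1 v, Finset.sum_const_zero] at hsum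
    have h2 : n * (n - 5) = 2 := by linarith
    have h3 : n ≤ 5 ∨ 6 ≤ n := by omega
    rcases h3 with h3 | h3
    · nlinarith
    · nlinarith

end

end Pool.Agent.H9.KB
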