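import Pool.Agent.H9.KB.Two3

set_option autoImplicit false

namespace Pool.Agent.H9.KB

open Finset Pool.Agent.H88.RS

variable {V : Type*} [Fintype V] [DecidableEq V]

section
variable {G : SimpleGraph V} [DecidableRel G.Adj] {n : ℤ} {M : V → V → ℤ} {t : V → ℤ}
variable (T : Two G n M t)
include T

/-- upper bound for the far partners -/
lemma fr_le (v : V) : fr M v ≤ 2 * n + 1 - (G.degree v : ℤ) + cn G M v := by
  have h1 : (univ.filter fun u => M v u = -3) ⊆ (univ \ (insert v (G.neighborFinset v))) ∪
      ((G.neighborFinset v).filter fun u => M v u = -3) := by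
    intro u hu
    rw [Finset.mem_filter] at hu
    rw [Finset.mem_union, Finset.mem_sdiff, Finset.mem_filter, Finset.mem_insert]
    have hne := ne_far T hu.2
    by_cases h : u ∈ G.neighborFinset v
    · exact Or.inr ⟨h, hu.2⟩
    · left
      refine ⟨Finset.mem_univ _, ?_⟩
      rintro (h' | h')
      · exact hne h'.symm
      · exact h h'
  have h2 := (Finset.card_le_card h1).trans (Finset.card_union_le _ _)
  rw [Finset.card_sdiff_of_subset (Finset.subset_univ _), Finset.card_univ,
      Finset.card_insert_of_notMem (by simp), G.card_neighborFinset_eq_degree] at h2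
  have h5 : G.degree v + 1 ≤ Fintype.card V := by
    have := G.degree_lt_card_verts v
    omega
  have h6 : ((Fintype.card V - (G.degree v + 1) : ℕ) : ℤ) = 2 * n + 1 - (G.degree v : ℤ) := by
    push_cast [h5]
    rw [T.hN]; ring
  unfold fr cn
  rw [← h6]
  exact_mod_cast h2

variable {x : V} (hx : n + 2 ≤ (G.degree x : ℤ))
  (hW : ∀ u, n + 2 ≤ (G.degree u : ℤ) → u = x)
include hx hW

/-- all vertices other than `x` have degree at most `n + 1` -/
lemma near_x {w : V} (h : M w x = 1) : (G.degree w : ℤ) = n + 1 ∧ G.Adj w x := by
  rcases near_type T hx h with h1 | h1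
  · exact h1
  · exfalso
    exact ne_near T h (hW w h1)

lemma nr_x : nr M x = an G M x := by
  unfold nr an
  congr 2
  ext u
  simp only [mem_filter, mem_univ, true_and, SimpleGraph.mem_neighborFinset]
  exact ⟨fun h => ⟨(near_x T hx hW (by rw [T.symm]; exact h)).2.symm, h⟩, fun h => h.2⟩

/-- the degree of `x` -/
lemma deg_x : (G.degree x : ℤ) = an G M x + ((FF G n).card : ℤ) := by
  have h1 : FF G n = (G.neighborFinset x).filter fun w => ¬ M x w = 1 := by
    ext w
    unfold FF
    simp only [mem_filter, mem_univ, true_and, SimpleGraph.mem_neighborFinset]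
    constructor
    · intro h
      obtain ⟨h2, h3⟩ := FW T h hx
      exact ⟨h3.symm, by rw [T.symm, h2]; norm_num⟩
    · rintro ⟨h2, h3⟩
      rcases trich T w with h | h | h
      · exact h
      · exact absurd (by rw [T.symm]; exact PWadj T h hx h2.symm) h3
      · exact absurd (hW w h) h2.ne'
  have h2 := Finset.card_filter_add_card_filter_not (s := G.neighborFinset x) (fun w => M x w = 1)
  rw [← h1, G.card_neighborFinset_eq_degree] at h2
  unfold an
  rw [← h2]; push_cast; ring

/-- small vertices -/
lemma F_one (hnd : ∀ v, (G.degree v : ℤ) = n → cn G M v ≠ 0) {v : V}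
    (hv : (G.degree v : ℤ) ≤ n) : (G.degree v : ℤ) = n ∧ 3 * cn G M v ≤ n - 4 ∧
    1 ≤ cn G M v := by
  have hn := T.hn
  obtain ⟨h0, ha⟩ := FW T hv hx
  have h1 := T.rule v x
  have hx' : x ∈ G.neighborFinset v := by simpa using ha
  rw [if_neg ha.ne, h0, ← Finset.add_sum_erase _ _ hx', T.diag] at h1
  have h2 : ∑ w ∈ (G.neighborFinset v).erase x, M w x
      ≤ ∑ w ∈ (G.neighborFinset v).erase x, (1 - if M v w = -3 then (1 : ℤ) else 0) := by
    refine Finset.sum_le_sum fun w hw => ?_
    have hwx := Finset.ne_of_mem_erase hw
    have haw : G.Adj v w := by simpa using Finset.mem_of_mem_erase hw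
    rcases Wge T hx hwx with h | h
    · rw [h]
      have h3 := (near_x T hx hW h).1
      have h4 : M v w ≠ -3 := by
        intro h5
        have := cn_ge T (v := w) (w := v) (by rw [T.symm]; exact h5) haw.symm
        have := C5 T (v := w) (by omega)
        omega
      rw [if_neg h4]; norm_num
    · rw [h]; split_ifs <;> norm_num
  have h3 : ∑ w ∈ (G.neighborFinset v).erase x, (if M v w = -3 then (1 : ℤ) else 0)
      = cn G M v := by
    unfold cn
    rw [Finset.card_filter, ← Finset.add_sum_erase _ _ hx', h0]
    push_cast
    norm_num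
  rw [Finset.sum_sub_distrib, h3, Finset.sum_const, Finset.card_erase_of_mem hx',
    G.card_neighborFinset_eq_degree, nsmul_eq_mul] at h2
  have h4 : 1 ≤ G.degree v := by
    rw [← G.card_neighborFinset_eq_degree]; exact Finset.card_pos.2 ⟨x, hx'⟩
  push_cast [h4] at h2
  have h5 := tform T v
  rw [anF T hv] at h5
  have h6 := ac_le T v
  rw [anF T hv] at h6
  have h7 := cn_nonneg T v
  have h8 : (G.degree v : ℤ) = n := by
    by_contra h
    have h9 : (G.degree v : ℤ) ≤ n - 1 := by omega
    nlinarith
  have h9 : 1 ≤ cn G M v := by
    have := hnd v h8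
    omega
  have h10 := cn_pos T h9
  refine ⟨h8, ?_, h9⟩
  rw [h8] at h5
  linarith

/-- exactly one large vertex -/
lemma caseB (hnd : ∀ v, (G.degree v : ℤ) = n → cn G M v ≠ 0) : False := by
  have hn := T.hn
  have hdx := deg_x T hx hW
  have hnrx := nr_x T hx hW
  have htx := tform T x
  rw [C5 T (by omega)] at htx
  have hW1 : ((WW G n).card : ℤ) = 1 := by
    have : WW G n = {x} := by
      ext w
      unfold WW
      rw [Finset.mem_filter, Finset.mem_singleton]
      exact ⟨fun h => hW w h.2, fun h => ⟨Finset.mem_univ _, by rw [h]; exact hx⟩⟩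
    rw [this]; simp
  have hparts := parts T
  rw [hW1] at hparts
  by_cases hex : ∃ v, (G.degree v : ℤ) ≤ n
  · obtain ⟨v, hv⟩ := hex
    obtain ⟨hvn, hvc, hvc1⟩ := F_one T hx hW hnd hv
    have hf1 : 1 ≤ ((FF G n).card : ℤ) := by
      have : 0 < (FF G n).card := Finset.card_pos.2 ⟨v, by
        unfold FF; rw [Finset.mem_filter]; exact ⟨Finset.mem_univ _, hv⟩⟩
      omega
    obtain ⟨h0, ha⟩ := FW T hv hx
    -- the degree of `x` is `n + 2`
    have hdx2 : (G.degree x : ℤ) = n + 2 := by
      by_contra hcon
      have hge : n + 3 ≤ (G.degree x : ℤ) := by omega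
      have h1 := T.rule x v
      have hv' : v ∈ G.neighborFinset x := by simpa using ha.symm
      rw [if_neg ha.ne', T.symm x v, h0, ← Finset.add_sum_erase _ _ hv', T.diag] at h1
      have h2 : ∑ w ∈ (G.neighborFinset x).erase v, (-3) * (if M v w = -3 then (1 : ℤ) else 0)
          ≤ ∑ w ∈ (G.neighborFinset x).erase v, M w v := by
        refine Finset.sum_le_sum fun w hw => ?_
        have hwv := Finset.ne_of_mem_erase hw
        rcases T.vals v w (Ne.symm hwv) with h | h | h
        · exact absurd h (C1 T hv)
        · rw [T.symm w v, h]; norm_num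
        · rw [T.symm w v, h]; norm_num
      have h3 : ∑ w ∈ (G.neighborFinset x).erase v, (if M v w = -3 then (1 : ℤ) else 0)
          ≤ fr M v := by
        unfold fr
        rw [Finset.card_filter]
        push_cast
        exact Finset.sum_le_sum_of_subset_of_nonneg (Finset.subset_univ _) (fun w _ _ => by
          split_ifs <;> norm_num)
      rw [← Finset.mul_sum] at h2
      have h4 := fr_le T v
      rw [hvn] at h4
      nlinarith
    have hA := nrW T hdx2
    rw [hnrx] at hA
    -- the vertices of degree `n + 1` that are not near to `x`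
    set Z := (PP G n).filter fun v => ¬ M x v = 1 with hZ
    have hA0 : (G.neighborFinset x).filter (fun w => M x w = 1)
        = (PP G n).filter fun v => M x v = 1 := by
      ext w
      unfold PP
      simp only [mem_filter, mem_univ, true_and, SimpleGraph.mem_neighborFinset]
      constructor
      · rintro ⟨h1, h2⟩
        exact ⟨(near_x T hx hW (by rw [T.symm]; exact h2)).1, h2⟩
      · rintro ⟨h1, h2⟩
        exact ⟨(near_x T hx hW (by rw [T.symm]; exact h2)).2.symm, h2⟩
    have hZcard : (Z.card : ℤ) = n - 1 := by
      have h2 := Finset.card_filter_add_card_filter_not (s := PP G n) (fun w => M x w = 1)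
      rw [← hA0, ← hZ] at h2
      have h3 : an G M x + (Z.card : ℤ) = ((PP G n).card : ℤ) := by
        unfold an
        exact_mod_cast h2
      linarith
    have hZprop : ∀ v ∈ Z, an G M v = 0 ∧ an G M x = n - 1 ∧
        (G.neighborFinset x).filter (fun w => M x w = 1) ⊆ G.neighborFinset v := by
      intro v hv
      rw [hZ, Finset.mem_filter] at hv
      unfold PP at hv
      rw [Finset.mem_filter] at hv
      obtain ⟨⟨-, hv1⟩, hv2⟩ := hv
      have hvx : v ≠ x := by rintro rfl; omega
      have hv3 : M v x = 0 := by
        rcases Wge T hx hvx with h | h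
        · exact absurd (by rw [T.symm]; exact h) hv2
        · exact h
      have hna : ¬ G.Adj v x := fun h => hv2 (by rw [T.symm]; exact PWadj T hv1 hx h)
      have h1 := T.rule v x
      rw [if_neg hvx, hv3, C6 T hv1] at h1
      have e1 : ∑ w ∈ G.neighborFinset v, M w x
          = (((G.neighborFinset v).filter fun w => M w x = 1).card : ℤ) := by
        rw [Finset.card_filter]
        push_cast
        refine Finset.sum_congr rfl fun w hw => ?_
        have hwx : w ≠ x := by rintro rfl; exact hna (by simpa using hw)
        rcases Wge T hx hwx with h | h <;> rw [h] <;> norm_num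
      have hsub : ((G.neighborFinset v).filter fun w => M w x = 1) ⊆
          (G.neighborFinset x).filter fun w => M x w = 1 := by
        intro w hw
        rw [Finset.mem_filter] at hw ⊢
        exact ⟨by simpa using (near_x T hx hW hw.2).2.symm, by rw [T.symm]; exact hw.2⟩
      have e2 : (((G.neighborFinset v).filter fun w => M w x = 1).card : ℤ) ≤ an G M x := by
        unfold an
        exact_mod_cast Finset.card_le_card hsub
      have e3 := an_nonneg T v
      have e4 : an G M x = n - 1 := by linarith
      refine ⟨by linarith, e4, ?_⟩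
      have e5 : ((G.neighborFinset v).filter fun w => M w x = 1) =
          (G.neighborFinset x).filter fun w => M x w = 1 := by
        apply Finset.eq_of_subset_of_card_le hsub
        have : (((G.neighborFinset x).filter fun w => M x w = 1).card : ℤ) = an G M x := rfl
        zify
        rw [this]
        linarith
      rw [← e5]
      exact Finset.filter_subset _ _
    obtain ⟨z, hz⟩ : Z.Nonempty := by
      rw [← Finset.card_pos]
      have : 0 < (Z.card : ℤ) := by rw [hZcard]; linarith
      exact_mod_cast this
    have hAx := (hZprop z hz).2.1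
    -- the near partners of the vertices near to `x`
    have hsmall : ∀ v' ∈ (G.neighborFinset x).filter (fun w => M x w = 1), nr M v' ≤ 2 := by
      intro v' hv'
      have hv'P : (G.degree v' : ℤ) = n + 1 := by
        rw [Finset.mem_filter] at hv'
        exact (near_x T hx hW (by rw [T.symm]; exact hv'.2)).1
      rw [nrP T hv'P]
      have h1 : Disjoint ((G.neighborFinset v').filter fun u => M v' u = 1) Z := by
        rw [Finset.disjoint_left]
        intro u hu hu'
        rw [Finset.mem_filter] at hu
        have h2 := (hZprop u hu').1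
        have h3 : (G.degree u : ℤ) = n + 1 := by
          rw [hZ, Finset.mem_filter] at hu'
          unfold PP at hu'
          rw [Finset.mem_filter] at hu'
          exact hu'.1.2
        have h4 := nr_pos T (v := u) (w := v') (by rw [T.symm]; exact hu.2)
        rw [nrP T h3, h2] at h4
        omega
      have h2 : ((G.neighborFinset v').filter fun u => M v' u = 1) ∪ Z ⊆ G.neighborFinset v' := by
        intro u hu
        rw [Finset.mem_union] at hu
        rcases hu with hu | hu
        · exact (Finset.mem_filter.1 hu).1
        · have h3 := (hZprop u hu).2.2 hv'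
          have h4 : G.Adj u v' := by simpa using h3
          simpa using h4.symm
      have h3 := Finset.card_le_card h2
      rw [Finset.card_union_of_disjoint h1, G.card_neighborFinset_eq_degree] at h3
      have h4 : an G M v' + (Z.card : ℤ) ≤ (G.degree v' : ℤ) := by
        unfold an
        exact_mod_cast h3
      linarith
    have htot : ∑ v, nr M v ≤ (n - 1) + 2 * (n - 1) := by
      have h1 : ∀ v, nr M v ≤ (if v = x then n - 1 else 0)
          + 2 * (if v ∈ (G.neighborFinset x).filter (fun w => M x w = 1) then (1 : ℤ) else 0) := by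
        intro v
        by_cases hvx : v = x
        · subst hvx
          rw [if_pos rfl, if_neg (by simp)]
          linarith
        · rw [if_neg hvx]
          by_cases h2 : v ∈ (G.neighborFinset x).filter (fun w => M x w = 1)
          · rw [if_pos h2]
            have := hsmall v h2
            linarith
          · rw [if_neg h2]
            rcases trich T v with h | h | h
            · rw [nrF T h]; norm_num
            · have h3 : v ∈ Z := by
                rw [hZ, Finset.mem_filter]
                unfold PP
                rw [Finset.mem_filter]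
                refine ⟨⟨Finset.mem_univ _, h⟩, fun h4 => h2 ?_⟩
                rw [Finset.mem_filter]
                exact ⟨by simpa using (near_x T hx hW (by rw [T.symm]; exact h4)).2.symm, h4⟩
              rw [nrP T h, (hZprop v h3).1]; norm_num
            · exact absurd (hW v h) hvx
      refine (Finset.sum_le_sum fun v _ => h1 v).trans ?_
      rw [Finset.sum_add_distrib, Finset.sum_ite_eq', if_pos (Finset.mem_univ x), ← Finset.mul_sum]
      have h2 : ∑ v, (if v ∈ (G.neighborFinset x).filter (fun w => M x w = 1) then (1 : ℤ) else 0)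
          = an G M x := by
        unfold an
        rw [Finset.sum_ite_mem, Finset.univ_inter]
        simp
      rw [h2, hAx]
    rw [T.nears] at htot
    have h7 : 4 ≤ n := by linarith
    nlinarith
  · push Not at hex
    have hF0 : ((FF G n).card : ℤ) = 0 := by
      have : FF G n = ∅ := by
        unfold FF
        rw [Finset.filter_eq_empty_iff]
        intro v _
        exact not_le.2 (hex v)
      rw [this]; simp
    rw [hF0, add_zero] at hdx
    have hsum := sumt T
    have h1 : ∀ v, v ≠ x → t v = (n - 1) + nr M v := by
      intro v hvx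
      have h2 : (G.degree v : ℤ) = n + 1 := by
        rcases trich T v with h | h | h
        · exact absurd h (not_le.2 (hex v))
        · exact h
        · exact absurd (hW v h) hvx
      rw [C6 T h2, nrP T h2]
    have h2 : ∑ v, (t v - nr M v) = (t x - nr M x) + (2 * n + 1) * (n - 1) := by
      rw [← Finset.add_sum_erase _ _ (Finset.mem_univ x)]
      congr 1
      have h3 : ∀ v ∈ univ.erase x, t v - nr M v = n - 1 := fun v hv => by
        rw [h1 v (Finset.ne_of_mem_erase hv)]; ring
      rw [Finset.sum_congr rfl h3, Finset.sum_const, Finset.card_erase_of_mem (Finset.mem_univ x),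
        Finset.card_univ, nsmul_eq_mul]
      have h4 : 1 ≤ Fintype.card V := Fintype.card_pos_iff.2 ⟨x⟩
      push_cast [h4]
      rw [T.hN]; ring
    rw [Finset.sum_sub_distrib, hsum, T.nears, hnrx, htx, hdx] at h2
    -- (2n+1) A = 3 n^2 - 2 n - 1
    have h3 : (2 * n + 1) * (4 * an G M x - 6 * n + 7) = 3 := by linarith
    have h4 : 0 < 4 * an G M x - 6 * n + 7 := by
      by_contra h
      push Not at h
      nlinarith
    have h5 : 1 ≤ 4 * an G M x - 6 * n + 7 := by omega
    nlinarith

end

/-- **The case `s = 2`.** -/
theorem two_final {G : SimpleGraph V} [DecidableRel G.Adj] {n : ℤ} {M : V → V → ℤ} {t : V → ℤ}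
    (T : Two G n M t) {y w w' : V} (hf : M y w = -3) (hnr : M y w' = 1) : False := by
  by_cases hnd : ∀ v, (G.degree v : ℤ) = n → cn G M v ≠ 0
  · by_cases hex : ∃ x, n + 2 ≤ (G.degree x : ℤ)
    · obtain ⟨x, hx⟩ := hex
      by_cases hex2 : ∃ u, n + 2 ≤ (G.degree u : ℤ) ∧ x ≠ u
      · obtain ⟨u, hu, hne⟩ := hex2
        exact caseA T hnd hx hu hne
      · push Not at hex2
        exact caseB T hx (fun u hu => (hex2 u hu).symm) hnd
    · push Not at hex
      exact caseC T hnd (fun v => by have := hex v; omega)
  · push Not at hnd
    obtain ⟨v, hv, hc⟩ := hnd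
    exact done T hv hc hf hnr

end Pool.Agent.H9.KB
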