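import Pool.Agent.H9.KB.Bridge

set_option autoImplicit false

/-!
The criteria of `Pool.Agent.H88.RS.Det` for `K_{m,n}` in terms of
`Pool.Agent.H59.KRes.resistanceSpectrum`.
-/

namespace Pool.Agent.H9.KB

open Pool.Agent.H59.KRes

theorem iso_of_determined {m n : ℕ} (hm : 0 < m) (hn : 0 < n)
    (h : Pool.Agent.H88.RS.Determined (completeBipartiteGraph (Fin m) (Fin n)))
    (W : Type) [Fintype W] [DecidableEq W] (H : SimpleGraph W) [DecidableRel H.Adj]
    (hH : H.Connected)
    (hRS : resistanceSpectrum H = resistanceSpectrum (Kmn m n)) :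
    Nonempty (H ≃g Kmn m n) :=
  h W H hH (spectrum_of (Kmn m n) H (Kmn_connected hm hn) hH hRS)

/-- no exceptional `k` -/
theorem iso_of_not_exc {m n : ℕ} (hn : 2 ≤ n) (hm : n + 2 ≤ m)
    (hk : ¬ ∃ k : ℕ, k * (m - n - 1) ≤ 2 * n ∧ 2 * n ≤ k * (m - n + 1) ∧
      Even (k * (m - n + 1)))
    (W : Type) [Fintype W] [DecidableEq W] (H : SimpleGraph W) [DecidableRel H.Adj]
    (hH : H.Connected)
    (hRS : resistanceSpectrum H = resistanceSpectrum (Kmn m n)) :
    Nonempty (H ≃g Kmn m n) :=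
  iso_of_determined (by omega) (by omega)
    (Pool.Agent.H88.RS.determined_of_not_exc hn hm hk) W H hH hRS

/-- large difference -/
theorem iso_of_large {m n : ℕ} (hn : 2 ≤ n) (hm : n + 2 ≤ m)
    (hL : 2 * n < (m - n) * (m - n - 1))
    (h2 : Even (m - n) ∨ 4 * (n - 1) < (m - n - 1) ^ 2)
    (W : Type) [Fintype W] [DecidableEq W] (H : SimpleGraph W) [DecidableRel H.Adj]
    (hH : H.Connected)
    (hRS : resistanceSpectrum H = resistanceSpectrum (Kmn m n)) :
    Nonempty (H ≃g Kmn m n) :=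
  iso_of_determined (by omega) (by omega)
    (Pool.Agent.H88.RS.determined_of_large hn hm hL h2) W H hH hRS

end Pool.Agent.H9.KB
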