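import Pool.Agent.H9.KB.Two4
import Pool.Agent.H9.KB.Union

set_option autoImplicit false

namespace Pool.Agent.H9.KB

open Finset Pool.Agent.H88.RS

/-- `K_{n+2,n}` is determined by its resistance spectrum, `n ≥ 3`. -/
theorem determined_two {m n : ℕ} (hn : 3 ≤ n) (h : m = n + 2) :
    Determined (completeBipartiteGraph (Fin m) (Fin n)) := by
  intro W _ H hH hsp
  classical
  obtain ⟨M, t, D, hcard, hα, hβ⟩ := exists_data hH (by omega) (by omega) hsp
  have e1 : (m : ℤ) = (n : ℤ) + 2 := by rw [h]; push_cast; ring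
  have e2 : (m : ℤ) - n = 2 := by rw [e1]; ring
  obtain ⟨A, hA, hadj⟩ := D.final hcard hα hβ (by
    intro v w w' h1 h2
    rw [e2] at D hα hβ h1 h2
    rw [e1] at D hα hcard
    have T := two_of_data D (by exact_mod_cast hn) hcard hα hβ
    exact two_final T (y := v) (w := w) (w' := w') (by rw [h1]; norm_num) (by rw [h2]; norm_num))
  exact iso_of_set hcard hA hadj

open Pool.Agent.H59.KRes in
/-- `K_{n+2,n}` is determined by its resistance spectrum, `n ≥ 3`. -/
theorem iso_of_two {m n : ℕ} (hn : 3 ≤ n) (hm : m = n + 2)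
    (W : Type) [Fintype W] [DecidableEq W] (H : SimpleGraph W) [DecidableRel H.Adj]
    (hH : H.Connected)
    (hRS : resistanceSpectrum H = resistanceSpectrum (Kmn m n)) :
    Nonempty (H ≃g Kmn m n) :=
  iso_of_determined (by omega) (by omega) (determined_two hn hm) W H hH hRS

end Pool.Agent.H9.KB
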